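import Pool.Agent.Y772.SL.Crit

/-!
# Selberg orthonormality for characters induced from a Galois extension of the rationals
-/

set_option autoImplicit false

open NumberField Complex Filter Topology Ideal
open scoped ArithmeticFunction.vonMangoldt Pointwise

namespace Pool.Agent.Y772.SL

open Pool.Agent.Y773 Pool.Agent.Y772.NZ Pool.Agent.Y772.SK

variable {K : Type} [Field K] [NumberField K]

lemma lim_av (hD : StDirK) (φ : Ideal (𝓞 K) →*₀ ℂ) (hφ : ∀ 𝔞, ‖φ 𝔞‖ ≤ 1) {g : ℂ → ℂ}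
    (hg : AnalyticAt ℂ g 1) (hg0 : g 1 ≠ 0)
    (h : ∀ᶠ s in 𝓝 (1 : ℂ), 1 < s.re → LI φ s = g s) :
    Tendsto (av fun n => (cc φ n).re) (𝓝[>] 0) (𝓝 0) := by
  obtain ⟨m, -, hm, hl⟩ := NV.lim_order2 hD φ hφ g hg 0 (by
    filter_upwards [h] with z hz hz1
    rw [pow_zero, mul_one, hz hz1])
  rw [hm hg0] at hl
  have e : (((0 : ℕ) : ℝ) - ((0 : ℕ) : ℝ)) = 0 := by norm_num
  rw [e] at hl
  exact hl

lemma lim_one (hD : StDirK) (K : Type) [Field K] [NumberField K] :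
    Tendsto (av fun n => (cc (one K) n).re) (𝓝[>] 0) (𝓝 1) := by
  obtain ⟨g, hg, hg1, hgz⟩ := near_one K
  obtain ⟨m, -, hm, hl⟩ := NV.lim_order2 hD (one K) (one_norm K) g hg 1 (by
    filter_upwards [hgz] with z hz h1
    have hz1 : z - 1 ≠ 0 := by
      intro h0
      have : z = 1 := by linear_combination h0
      rw [this] at h1
      simp at h1
    rw [pow_one, hz h1, div_mul_cancel₀ _ hz1])
  rw [hm hg1] at hl
  have e : (((1 : ℕ) : ℝ) - ((0 : ℕ) : ℝ)) = 1 := by norm_num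
  rw [e] at hl
  exact hl

lemma rs_norm {ψ : Ideal (𝓞 K) →*₀ ℂ} (hψ : ∀ 𝔞, ‖ψ 𝔞‖ ≤ 1) (τ : Gal(K/ℚ)) (I : Ideal (𝓞 K)) :
    ‖rs τ.toRingEquiv ψ I‖ ≤ 1 := by
  rw [rs_apply, norm_mul, RCLike.norm_conj]
  have h1 := hψ I
  have h2 := hψ (τ • I)
  nlinarith [norm_nonneg (ψ I), norm_nonneg (ψ (τ • I))]

lemma norm_one_of {𝔪 : Ideal (𝓞 K)} {ψ : Ideal (𝓞 K) →*₀ ℂ}
    (hm1 : ∀ 𝔞, IsCoprime 𝔞 𝔪 → ‖ψ 𝔞‖ = 1) {p : ℕ} (hp : p.Prime) {Q : Ideal (𝓞 K)}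
    (hQ : absNorm Q = p) (hQd : ¬ Q ∣ 𝔪) : ‖ψ Q‖ = 1 := by
  refine hm1 Q ?_
  have hQp := prime_of_norm hp hQ
  have hQm : Q.IsMaximal := hQp.isMaximal (ne_bot_of_norm hp hQ)
  rw [Ideal.isCoprime_iff_sup_eq]
  by_contra hne
  have h9 := hQm.eq_of_le hne le_sup_left
  refine hQd (Ideal.dvd_iff_le.2 ?_)
  rw [h9]
  exact le_sup_right

/-- the square of a sum over a group -/
lemma sq_sum_group {G : Type*} [Group G] [Fintype G] (f : G → ℂ) :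
    ((‖∑ g, f g‖ ^ 2 : ℝ) : ℂ) = ∑ s : G, ∑ g : G, f g * (starRingEnd ℂ) (f (s * g)) := by
  rw [Finset.sum_comm]
  have h1 : ((‖∑ g, f g‖ ^ 2 : ℝ) : ℂ) = (∑ g, f g) * (starRingEnd ℂ) (∑ g, f g) := by
    rw [Complex.mul_conj, Complex.normSq_eq_norm_sq]
  rw [h1, Finset.sum_mul, map_sum]
  refine Finset.sum_congr rfl fun g _ => ?_
  rw [Finset.mul_sum]
  exact (Fintype.sum_equiv (Equiv.mulRight g) _ _ fun s => rfl).symm

/-- `‖c p‖²` is `u p` at almost all primes, and the average of `u` is `1` -/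
def SelData (c : ℕ → ℂ) : Prop := ∃ (u : ℕ → ℝ) (A : ℝ) (S : Finset ℕ), (∀ n, |u n| ≤ A) ∧
  (∀ p : ℕ, p.Prime → p ∉ S → ‖c p‖ ^ 2 = u p) ∧ Tendsto (av u) (𝓝[>] 0) (𝓝 1)

lemma SelData.congr {c c' : ℕ → ℂ} (h : SelData c) (S' : Finset ℕ)
    (hc : ∀ p : ℕ, p.Prime → p ∉ S' → c' p = c p) : SelData c' := by
  classical
  obtain ⟨u, A, S, h1, h2, h3⟩ := h
  refine ⟨u, A, S ∪ S', h1, fun p hp hS => ?_, h3⟩
  rw [Finset.mem_union, not_or] at hS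
  rw [hc p hp hS.2, h2 p hp hS.1]

lemma SelData.selE {c : ℕ → ℂ} (h : SelData c) {B : ℝ} (hc : ∀ n, ‖c n‖ ≤ B) : W388.SelE c := by
  obtain ⟨u, A, S, h1, h2, h3⟩ := h
  exact selE_of c hc u h1 S h2 h3

theorem sel_gal (hD : StDirK) (hG : IsGalois ℚ K) (ψ : Ideal (𝓞 K) →*₀ ℂ)
    (hψ : ∀ 𝔞, ‖ψ 𝔞‖ ≤ 1) (hm : ∃ 𝔪 : Ideal (𝓞 K), 𝔪 ≠ ⊥ ∧ ∀ 𝔞, IsCoprime 𝔞 𝔪 → ‖ψ 𝔞‖ = 1)
    (hcont : ∀ σ : Gal(K/ℚ), σ ≠ 1 → ∃ g : ℂ → ℂ, AnalyticAt ℂ g 1 ∧ g 1 ≠ 0 ∧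
      ∀ᶠ s in 𝓝 (1 : ℂ), 1 < s.re → LI (rs σ.toRingEquiv ψ) s = g s) :
    SelData (cc ψ) := by
  classical
  obtain ⟨𝔪, hm0, hm1⟩ := hm
  obtain ⟨A, hA, hDK⟩ := hD K
  have hb := fun (φ : Ideal (𝓞 K) →*₀ ℂ) (hφ : ∀ 𝔞, ‖φ 𝔞‖ ≤ 1) => (hDK φ hφ).2.2.2.2.2.2.1
  have hv := fun (φ : Ideal (𝓞 K) →*₀ ℂ) (hφ : ∀ 𝔞, ‖φ 𝔞‖ ≤ 1) => (hDK φ hφ).2.2.2.2.2.2.2.1
  have hbad0 : differentIdeal ℤ (𝓞 K) * 𝔪 ≠ 0 := mul_ne_zero differentIdeal_ne_bot hm0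
  have hfb := finite_bad' K hbad0
  set n := Module.finrank ℚ K with hn
  have hc1 : ∀ k, |(cc (one K) k).re| ≤ n := fun k =>
    (abs_re_le_norm _).trans (hb _ (one_norm K) k)
  have hc2 : ∀ (σ : Gal(K/ℚ)) k, |(cc (rs σ.toRingEquiv ψ) k).re| ≤ n := fun σ k =>
    (abs_re_le_norm _).trans (hb _ (rs_norm hψ σ) k)
  -- the partial sums
  have hpart : ∀ s : Finset Gal(K/ℚ), (1 : Gal(K/ℚ)) ∉ s →
      (∀ k, |(cc (one K) k).re + ∑ σ ∈ s, (cc (rs σ.toRingEquiv ψ) k).re| ≤ n + s.card * n) ∧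
      Tendsto (av fun k => (cc (one K) k).re + ∑ σ ∈ s, (cc (rs σ.toRingEquiv ψ) k).re)
        (𝓝[>] 0) (𝓝 1) := by
    intro s
    induction s using Finset.induction_on with
    | empty =>
      intro _
      simp only [Finset.sum_empty, add_zero, Finset.card_empty, Nat.cast_zero, zero_mul]
      exact ⟨hc1, lim_one hD K⟩
    | insert σ s hσ ih =>
      intro h1
      obtain ⟨i1, i2⟩ := ih fun h => h1 (Finset.mem_insert_of_mem h)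
      have hσ1 : σ ≠ 1 := by
        rintro rfl
        exact h1 (Finset.mem_insert_self _ _)
      obtain ⟨g, hg, hg0, hgs⟩ := hcont σ hσ1
      have h3 := lim_av hD _ (rs_norm hψ σ) hg hg0 hgs
      have he : ∀ k, (cc (one K) k).re + ∑ σ ∈ insert σ s, (cc (rs σ.toRingEquiv ψ) k).re =
          ((cc (one K) k).re + ∑ σ ∈ s, (cc (rs σ.toRingEquiv ψ) k).re) +
            (cc (rs σ.toRingEquiv ψ) k).re := by
        intro k
        rw [Finset.sum_insert hσ]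
        ring
      refine ⟨fun k => ?_, ?_⟩
      · rw [he, Finset.card_insert_of_notMem hσ]
        push_cast
        have h5 := (abs_add_le ((cc (one K) k).re + ∑ σ ∈ s, (cc (rs σ.toRingEquiv ψ) k).re)
          (cc (rs σ.toRingEquiv ψ) k).re).trans (add_le_add (i1 k) (hc2 σ k))
        linarith
      · have h4 := i2.add h3
        rw [add_zero] at h4
        refine h4.congr' ?_
        filter_upwards [self_mem_nhdsWithin] with x hx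
        rw [← av_add i1 (hc2 σ) hx]
        simp only [he]
  obtain ⟨p1, p2⟩ := hpart (Finset.univ.erase 1) (Finset.notMem_erase _ _)
  refine ⟨_, _, hfb.toFinset, p1, ?_, p2⟩
  intro p hp hS
  rw [Set.Finite.mem_toFinset] at hS
  by_cases hT : p ∈ TT K
  · obtain ⟨-, P, hP⟩ := hT
    have hnd : ∀ Q : Ideal (𝓞 K), absNorm Q = p → ¬ Q ∣ differentIdeal ℤ (𝓞 K) := fun Q hQ h =>
      hS ⟨Q, hQ, h.mul_right 𝔪⟩
    have hun : ∀ Q : Ideal (𝓞 K), absNorm Q = p → ‖ψ Q‖ = 1 := fun Q hQ =>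
      norm_one_of hm1 hp hQ fun h => hS ⟨Q, hQ, h.mul_left _⟩
    have hgP : ∀ g : Gal(K/ℚ), absNorm (g • P) = p := fun g => by rw [absNorm_smul', hP]
    have e0 := hv ψ hψ p hp
    have e1 := hv (one K) (one_norm K) p hp
    have e2 := fun σ : Gal(K/ℚ) => hv _ (rs_norm hψ σ) p hp
    rw [sum_orbit hG hp hP (hnd P hP)] at e0 e1
    simp only [sum_orbit hG hp hP (hnd P hP), rs_apply, smul_smul] at e2
    have o1 : cc (one K) p = (Nat.card Gal(K/ℚ) : ℂ) := by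
      rw [e1, Finset.sum_congr rfl fun g _ => one_ne K (ne_bot_of_norm hp (hgP g))]
      simp [Nat.card_eq_fintype_card]
    have o2 : ∑ g : Gal(K/ℚ), ψ (g • P) * (starRingEnd ℂ) (ψ ((1 * g) • P)) =
        (Nat.card Gal(K/ℚ) : ℂ) := by
      rw [Finset.sum_congr rfl fun g _ => ?_, Finset.sum_const, Finset.card_univ,
        Nat.card_eq_fintype_card, nsmul_eq_mul, mul_one]
      rw [one_mul, Complex.mul_conj, Complex.normSq_eq_norm_sq, hun _ (hgP g)]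
      simp
    have h3 := sq_sum_group fun g : Gal(K/ℚ) => ψ (g • P)
    rw [← e0, ← Finset.add_sum_erase _ _ (Finset.mem_univ (1 : Gal(K/ℚ))), o2, ← o1] at h3
    have h4 := congrArg Complex.re h3
    rw [ofReal_re, add_re, re_sum] at h4
    rw [h4]
    congr 1
    refine Finset.sum_congr rfl fun σ _ => ?_
    rw [e2 σ]
  · rw [cc_zero_of_not hp (hv ψ hψ p hp) hT, cc_zero_of_not hp (hv _ (one_norm K) p hp) hT]
    simp only [norm_zero, zero_re, zero_add]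
    rw [Finset.sum_eq_zero]
    · norm_num
    · intro σ _
      rw [cc_zero_of_not hp (hv _ (rs_norm hψ σ) p hp) hT, zero_re]

end Pool.Agent.Y772.SL
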