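import Pool.Agent.Y772.SL.Gal
import Pool.Agent.Y772.NV.Tot
import Pool.Agent.Y772.TW.Pos

/-!
# Restriction of a ray class character to the ideals prime to a modulus
-/

set_option autoImplicit false

open NumberField Complex Filter Topology Ideal
open scoped ArithmeticFunction.vonMangoldt Pointwise

namespace Pool.Agent.Y772.SL

open Pool.Agent.Y773 Pool.Agent.Y772.NZ Pool.Agent.Y772.SK

section general

variable {K : Type} [Field K] [NumberField K]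

open Classical in
/-- the restriction of `ψ` to the ideals prime to `𝔪` -/
noncomputable def res (𝔪 : Ideal (𝓞 K)) (ψ : Ideal (𝓞 K) →*₀ ℂ) :
    Ideal (𝓞 K) →*₀ ℂ where
  toFun 𝔞 := if IsCoprime 𝔞 𝔪 then ψ 𝔞 else 0
  map_zero' := by
    split_ifs with h1
    · rw [map_zero]
    · rfl
  map_one' := by rw [if_pos isCoprime_one_left, map_one]
  map_mul' 𝔞 𝔟 := by
    by_cases h1 : IsCoprime 𝔞 𝔪
    · by_cases h2 : IsCoprime 𝔟 𝔪
      · rw [if_pos h1, if_pos h2, if_pos (h1.mul_left h2), map_mul]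
      · rw [if_neg h2, if_neg (fun h3 => h2 (IsCoprime.mul_left_iff.1 h3).2), mul_zero]
    · rw [if_neg h1, if_neg (fun h3 => h1 (IsCoprime.mul_left_iff.1 h3).1), zero_mul]

lemma res_of {𝔪 : Ideal (𝓞 K)} {ψ : Ideal (𝓞 K) →*₀ ℂ} {𝔞 : Ideal (𝓞 K)}
    (h1 : IsCoprime 𝔞 𝔪) : res 𝔪 ψ 𝔞 = ψ 𝔞 := if_pos h1

lemma res_not {𝔪 : Ideal (𝓞 K)} {ψ : Ideal (𝓞 K) →*₀ ℂ} {𝔞 : Ideal (𝓞 K)}
    (h1 : ¬ IsCoprime 𝔞 𝔪) : res 𝔪 ψ 𝔞 = 0 := if_neg h1

/-- a ray class character has absolute value one -/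
lemma prim_norm_one {𝔣 : Ideal (𝓞 K)} {ψ : Ideal (𝓞 K) →*₀ ℂ} (hψ : IsPrimChar K 𝔣 ψ)
    {𝔞 : Ideal (𝓞 K)} (h0 : 𝔞 ≠ ⊥) (h : IsCoprime 𝔞 𝔣) : ‖ψ 𝔞‖ = 1 := by
  obtain ⟨k, x, hk, hx0, hx1, hx⟩ := exists_pow hψ.ne_bot h0 h
  have h1 : ψ (Ideal.span {x ^ 2}) = 1 := by
    refine hψ.ray _ ?_ fun σ => ?_
    · have : x ^ 2 - 1 = (x + 1) * (x - 1) := by ring
      rw [this]
      exact Ideal.mul_mem_left _ _ hx1
    · have h2 : σ ((x ^ 2 : 𝓞 K) : K) = (σ (x : K)) ^ 2 := by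
        rw [← map_pow]
        congr 1
      rw [h2]
      have h3 : σ (x : K) ≠ 0 := (map_ne_zero _).2 (by exact_mod_cast hx0)
      positivity
  rw [← Ideal.span_singleton_pow, ← hx, ← pow_mul, map_pow] at h1
  have h2 := congrArg norm h1
  rw [norm_pow, norm_one] at h2
  exact (pow_eq_one_iff_of_nonneg (norm_nonneg _) (by omega)).1 h2

lemma prim_norm_le {𝔣 : Ideal (𝓞 K)} {ψ : Ideal (𝓞 K) →*₀ ℂ} (hψ : IsPrimChar K 𝔣 ψ)
    (𝔞 : Ideal (𝓞 K)) : ‖ψ 𝔞‖ ≤ 1 := by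
  by_cases h0 : 𝔞 = ⊥
  · rw [h0, ← Ideal.zero_eq_bot, map_zero, norm_zero]; exact zero_le_one
  by_cases h : IsCoprime 𝔞 𝔣
  · exact (prim_norm_one hψ h0 h).le
  · have : ψ 𝔞 = 0 := by
      by_contra h1
      exact h ((hψ.supp 𝔞 h0).1 h1)
    rw [this, norm_zero]; exact zero_le_one

lemma smul_isCoprime {I J : Ideal (𝓞 K)} (g : Gal(K/ℚ)) (h : IsCoprime I J) :
    IsCoprime (g • I) (g • J) := by
  rw [smul_eq_map, smul_eq_map, Ideal.isCoprime_iff_sup_eq, ← Ideal.map_sup,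
    Ideal.isCoprime_iff_sup_eq.1 h, Ideal.map_top]

lemma smul_span_nat (g : Gal(K/ℚ)) (M : ℕ) :
    g • (Ideal.span {(M : 𝓞 K)}) = Ideal.span {(M : 𝓞 K)} := by
  rw [smul_eq_map, Ideal.map_span, Set.image_singleton, map_natCast]

end general

section real

variable {K : Type} [Field K] [NumberField K] [IsTotallyReal K]

/-- the restriction of a ray class character is a character modulo `𝔪` -/
lemma res_mod {𝔣 : Ideal (𝓞 K)} {ψ : Ideal (𝓞 K) →*₀ ℂ} (hψ : IsPrimChar K 𝔣 ψ)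
    {𝔪 : Ideal (𝓞 K)} (h0 : 𝔪 ≠ ⊥) (h1 : 𝔪 ≠ ⊤) (hd : 𝔪 ≤ 𝔣) :
    ∃ e, IsModChar 𝔪 e (res 𝔪 ψ) := by
  refine NV.exists_sig h0 h1 (fun 𝔞 ha => ?_) fun x hx hp => ?_
  · constructor
    · intro h2
      by_contra h3
      exact h2 (res_not h3)
    · intro h2
      rw [res_of h2]
      exact (hψ.supp 𝔞 ha).2 (Ideal.isCoprime_iff_sup_eq.2 (eq_top_iff.2
        ((Ideal.isCoprime_iff_sup_eq.1 h2).ge.trans (sup_le_sup_left hd _))))
  · rw [res_of (NV.coprime_of_sub_one hx)]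
    exact hψ.ray x (hd hx) hp

/-- conjugation of a character modulo a rational integer -/
lemma rs_mod {M : ℕ} {e : InfinitePlace K → ℕ} {η : Ideal (𝓞 K) →*₀ ℂ}
    (h : IsModChar (Ideal.span {(M : 𝓞 K)}) e η) (σ : Gal(K/ℚ)) :
    ∃ e', IsModChar (Ideal.span {(M : 𝓞 K)}) e' (rs σ.toRingEquiv η) := by
  refine NV.exists_sig h.ne_bot h.ne_top (fun 𝔞 _ => ?_) fun x hx hp => ?_
  · rw [rs_apply, mul_ne_zero_iff, map_ne_zero (starRingEnd ℂ), h.supp, h.supp]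
    constructor
    · exact fun h1 => h1.1
    · intro h1
      refine ⟨h1, ?_⟩
      have := smul_isCoprime σ h1
      rwa [smul_span_nat] at this
  · have hx0 : x ≠ 0 := by
      rintro rfl
      obtain ⟨w⟩ : Nonempty (InfinitePlace K) := inferInstance
      have := hp (rl w)
      simp at this
    have hsg : ∀ y : 𝓞 K, (∀ w : InfinitePlace K, 0 < rl w (y : K)) → sg e (y : K) = 1 := by
      intro y hy
      unfold sg
      refine Finset.prod_eq_one fun w _ => ?_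
      rw [sign_pos (hy w)]
      simp
    rw [rs_apply, h.sig x hx0 hx, hsg x fun w => hp (rl w), one_mul]
    have h1 : σ • (Ideal.span {x}) =
        Ideal.span {RingOfIntegers.mapRingEquiv σ.toRingEquiv x} := by
      rw [smul_eq_map, Ideal.map_span, Set.image_singleton]
      rfl
    have h2 : RingOfIntegers.mapRingEquiv σ.toRingEquiv x - 1 ∈ Ideal.span {(M : 𝓞 K)} := by
      obtain ⟨y, hy⟩ := Ideal.mem_span_singleton.1 hx
      refine Ideal.mem_span_singleton.2 ⟨RingOfIntegers.mapRingEquiv σ.toRingEquiv y, ?_⟩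
      have := congrArg (RingOfIntegers.mapRingEquiv σ.toRingEquiv) hy
      rw [map_sub, map_one, map_mul, map_natCast] at this
      exact this
    have h3 : RingOfIntegers.mapRingEquiv σ.toRingEquiv x ≠ 0 := by
      rw [Ne, EmbeddingLike.map_eq_zero_iff]
      exact hx0
    rw [h1, h.sig _ h3 h2, hsg _ fun w => ?_, map_one]
    exact hp ((rl w).comp (σ.toRingEquiv : K →+* K))

/-- nontrivial characters have a regular nonzero L-function at `1` -/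
lemma reg_one {𝔪 : Ideal (𝓞 K)} {e : InfinitePlace K → ℕ} {η : Ideal (𝓞 K) →*₀ ℂ}
    (h : IsModChar 𝔪 e η) (hn : ∃ 𝔞, IsCoprime 𝔞 𝔪 ∧ η 𝔞 ≠ 1) :
    ∃ g : ℂ → ℂ, AnalyticAt ℂ g 1 ∧ g 1 ≠ 0 ∧
      ∀ᶠ s in 𝓝 (1 : ℂ), 1 < s.re → LI η s = g s := by
  obtain ⟨F, hF, hFs⟩ := LI_entire h hn
  have h1 : ∀ᶠ s in 𝓝 (1 : ℂ), 1 < s.re → F s = LI η s := Eventually.of_forall hFs
  exact ⟨F, hF.analyticAt 1, NV.nv_tot h one_re (hF.analyticAt 1) h1,
    Eventually.of_forall fun s hs => (hFs s hs).symm⟩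

lemma coprime_of_norm {p : ℕ} (hp : p.Prime) {P : Ideal (𝓞 K)} (h : absNorm P = p) {M : ℕ}
    (hM : ¬ p ∣ M) : IsCoprime P (Ideal.span {(M : 𝓞 K)}) := by
  rw [TW.coprime_q, h]
  exact (Nat.Prime.coprime_iff_not_dvd hp).2 hM

lemma span_ne_top {M : ℕ} (hM : 2 ≤ M) : Ideal.span {(M : 𝓞 K)} ≠ ⊤ := by
  intro h
  have h1 := congrArg Ideal.absNorm h
  rw [absNorm_span_nat, Ideal.absNorm_top] at h1
  have h2 : 1 < M ^ Module.finrank ℚ K :=
    Nat.one_lt_pow Module.finrank_pos.ne' (by omega)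
  omega

/-- **Selberg orthonormality**, Galois case of prime degree -/
theorem sel_prime (hG : IsGalois ℚ K) (hpr : (Module.finrank ℚ K).Prime) {𝔣 : Ideal (𝓞 K)}
    {ψ : Ideal (𝓞 K) →*₀ ℂ} (hψ : IsPrimChar K 𝔣 ψ) {p : ℕ} (hp : p.Prime)
    (hpf : ¬ p ∣ absNorm 𝔣) {P P' : Ideal (𝓞 K)} (hP : absNorm P = p) (hP' : absNorm P' = p)
    (hne : ψ P ≠ ψ P') : SelData (cc ψ) := by
  classical
  set M : ℕ := (p + 1) * absNorm 𝔣 with hM
  have hN0 : absNorm 𝔣 ≠ 0 := by rw [Ne, absNorm_eq_zero_iff]; exact hψ.ne_bot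
  have hM2 : 2 ≤ M := by
    have := hp.two_le
    have := Nat.pos_of_ne_zero hN0
    nlinarith
  have hpM : ¬ p ∣ M := by
    rw [hM, hp.dvd_mul, not_or]
    refine ⟨fun h => ?_, hpf⟩
    have := (Nat.dvd_add_right (dvd_refl p)).1 h
    exact hp.one_lt.ne' (Nat.dvd_one.1 this)
  have h𝔪0 : Ideal.span {(M : 𝓞 K)} ≠ ⊥ := by
    rw [Ne, Ideal.span_singleton_eq_bot, Nat.cast_eq_zero]
    omega
  have h𝔪1 := span_ne_top (K := K) hM2
  have hle : Ideal.span {(M : 𝓞 K)} ≤ 𝔣 := by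
    rw [Ideal.span_singleton_le_iff_mem, hM]
    push_cast
    exact Ideal.mul_mem_left _ _ (absNorm_mem 𝔣)
  obtain ⟨e, he⟩ := res_mod hψ h𝔪0 h𝔪1 hle
  set η := res (Ideal.span {(M : 𝓞 K)}) ψ with hη
  have hPM := coprime_of_norm hp hP hpM
  have hPM' := coprime_of_norm hp hP' hpM
  -- the conjugating element
  obtain ⟨γ, hγ⟩ : ∃ γ : Gal(K/ℚ), γ • P = P' := by
    have hPp := prime_of_norm hp hP
    have hPl := liesOver_of_norm hp hP
    have hPp' := prime_of_norm hp hP'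
    have hPl' := liesOver_of_norm hp hP'
    exact exists_smul_eq_of_isGaloisGroup (span {(p : ℤ)}) P P' (Gal(K/ℚ))
  have hcont : ∀ σ : Gal(K/ℚ), σ ≠ 1 → ∃ 𝔞, IsCoprime 𝔞 (Ideal.span {(M : 𝓞 K)}) ∧
      rs σ.toRingEquiv η 𝔞 ≠ 1 := by
    intro σ hσ
    by_contra hcon
    push Not at hcon
    have h1 : ∀ 𝔞, IsCoprime 𝔞 (Ideal.span {(M : 𝓞 K)}) → η (σ • 𝔞) = η 𝔞 := by
      intro 𝔞 h𝔞
      have h2 := hcon 𝔞 h𝔞
      rw [rs_apply] at h2
      have h3 : IsCoprime (σ • 𝔞) (Ideal.span {(M : 𝓞 K)}) := by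
        have := smul_isCoprime σ h𝔞
        rwa [smul_span_nat] at this
      have h4 := he.norm_eq_one h3
      have h5 : (starRingEnd ℂ) (η (σ • 𝔞)) * η (σ • 𝔞) = 1 := by
        rw [mul_comm, Complex.mul_conj, Complex.normSq_eq_norm_sq, h4]
        simp
      calc η (σ • 𝔞) = (η 𝔞 * (starRingEnd ℂ) (η (σ • 𝔞))) * η (σ • 𝔞) := by rw [h2, one_mul]
        _ = η 𝔞 := by rw [mul_assoc, h5, mul_one]
    have h2 : ∀ k : ℕ, ∀ 𝔞, IsCoprime 𝔞 (Ideal.span {(M : 𝓞 K)}) → η (σ ^ k • 𝔞) = η 𝔞 := by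
      intro k
      induction k with
      | zero => intro 𝔞 _; rw [pow_zero, one_smul]
      | succ k ih =>
        intro 𝔞 h𝔞
        have h3 : IsCoprime (σ • 𝔞) (Ideal.span {(M : 𝓞 K)}) := by
          have := smul_isCoprime σ h𝔞
          rwa [smul_span_nat] at this
        rw [pow_succ, mul_smul, ih _ h3, h1 𝔞 h𝔞]
    have hcard : Nat.card Gal(K/ℚ) = Module.finrank ℚ K := IsGalois.card_aut_eq_finrank ℚ K
    have hfact : Fact (Module.finrank ℚ K).Prime := ⟨hpr⟩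
    have h3 : γ ∈ Subgroup.zpowers σ := mem_zpowers_of_prime_card hcard hσ
    rw [← mem_powers_iff_mem_zpowers] at h3
    obtain ⟨k, hk⟩ := h3
    have hk' : σ ^ k = γ := hk
    have h4 := h2 k P hPM
    rw [hk', hγ, hη, res_of hPM', res_of hPM] at h4
    exact hne h4.symm
  have hdata : SelData (cc η) := by
    refine sel_gal DK.t_dirK hG η he.norm_le_one ⟨_, h𝔪0, fun 𝔞 h => he.norm_eq_one h⟩
      fun σ hσ => ?_
    obtain ⟨e', he'⟩ := rs_mod he σ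
    exact reg_one he' (hcont σ hσ)
  refine hdata.congr M.primeFactors fun q hq hqM => ?_
  have hqM' : ¬ q ∣ M := fun h => hqM (Nat.mem_primeFactors.2 ⟨hq, h, by omega⟩)
  obtain ⟨A, hA, hDK⟩ := DK.t_dirK K
  rw [(hDK ψ (prim_norm_le hψ)).2.2.2.2.2.2.2.1 q hq,
    (hDK η he.norm_le_one).2.2.2.2.2.2.2.1 q hq]
  refine finsum_mem_congr rfl fun Q hQ => ?_
  rw [hη, res_of (coprime_of_norm hq hQ hqM')]

end real

end Pool.Agent.Y772.SL
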