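import Pool.Agent.Y772.SL.Orb
import Pool.Agent.Y772.NV.Ord

/-!
# A criterion for weak Selberg orthonormality
-/

set_option autoImplicit false

open NumberField Complex Filter Topology Ideal
open scoped ArithmeticFunction.vonMangoldt

namespace Pool.Agent.Y772.SL

open Pool.Agent.Y773

/-- the average of a bounded sequence against `Λ(n) n^(-1-σ)` -/
noncomputable def av (u : ℕ → ℝ) (σ : ℝ) : ℝ := σ * ∑' n : ℕ, u n * Λ n * (n : ℝ) ^ (-(1 + σ))

lemma av_add {u v : ℕ → ℝ} {A B : ℝ} (hu : ∀ n, |u n| ≤ A) (hv : ∀ n, |v n| ≤ B) {σ : ℝ}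
    (hσ : 0 < σ) : av (fun n => u n + v n) σ = av u σ + av v σ := by
  unfold av
  rw [← mul_add, ← (NV.summable_bdd hσ u A hu).tsum_add (NV.summable_bdd hσ v B hv)]
  congr 1
  exact tsum_congr fun n => by ring

lemma av_mul (a : ℝ) (u : ℕ → ℝ) (σ : ℝ) : av (fun n => a * u n) σ = a * av u σ := by
  unfold av
  have h : ∑' n : ℕ, a * u n * Λ n * (n : ℝ) ^ (-(1 + σ)) =
      a * ∑' n : ℕ, u n * Λ n * (n : ℝ) ^ (-(1 + σ)) := by
    rw [← tsum_mul_left]
    exact tsum_congr fun n => by ring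
  simp only [h]
  ring

/-- a bounded sequence which vanishes at almost all primes has average zero -/
lemma av_zero {w : ℕ → ℝ} {B : ℝ} (hw : ∀ n, |w n| ≤ B) (S : Finset ℕ)
    (h : ∀ p : ℕ, p.Prime → p ∉ S → w p = 0) : Tendsto (av w) (𝓝[>] 0) (𝓝 0) := by
  classical
  have hΛ : ∀ n : ℕ, 0 ≤ Λ n := fun n => ArithmeticFunction.vonMangoldt_nonneg
  have hB : 0 ≤ B := (abs_nonneg _).trans (hw 0)
  have hnp : Summable (fun n : ℕ => (if n.Prime then 0 else Λ n) / (n : ℝ)) := by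
    have h := ArithmeticFunction.vonMangoldt.summable_residueClass_non_primes_div (q := 1) (a := 0)
    refine h.congr fun n => ?_
    congr 1
    split_ifs with hn
    · rfl
    · unfold ArithmeticFunction.vonMangoldt.residueClass
      rw [Set.indicator_of_mem]
      exact Subsingleton.elim _ _
  have hfs : Summable (fun n : ℕ => if n ∈ S then Λ n else 0) :=
    summable_of_ne_finset_zero (s := S) fun n hn => if_neg hn
  set W : ℝ := ∑' n : ℕ, (B * ((if n.Prime then 0 else Λ n) / (n : ℝ)) +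
    B * (if n ∈ S then Λ n else 0)) with hW
  have hWs : Summable (fun n : ℕ => B * ((if n.Prime then 0 else Λ n) / (n : ℝ)) +
    B * (if n ∈ S then Λ n else 0)) := (hnp.mul_left _).add (hfs.mul_left _)
  have h0 : Tendsto (fun σ : ℝ => σ * W) (𝓝[>] 0) (𝓝 0) := by
    have : Continuous fun σ : ℝ => σ * W := by fun_prop
    have h1 := this.tendsto 0
    rw [zero_mul] at h1
    exact h1.mono_left nhdsWithin_le_nhds
  refine squeeze_zero_norm' ?_ h0
  filter_upwards [self_mem_nhdsWithin] with σ hσ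
  have hσ' : (0 : ℝ) < σ := hσ
  unfold av
  rw [norm_mul, Real.norm_of_nonneg hσ'.le, Real.norm_eq_abs]
  refine mul_le_mul_of_nonneg_left ?_ hσ'.le
  have hr : ∀ n : ℕ, 0 ≤ (n : ℝ) ^ (-(1 + σ)) := fun n => Real.rpow_nonneg (Nat.cast_nonneg n) _
  have hr1 : ∀ n : ℕ, (n : ℝ) ^ (-(1 + σ)) ≤ 1 / (n : ℝ) := by
    intro n
    rcases Nat.eq_zero_or_pos n with rfl | hn
    · rw [Nat.cast_zero, Real.zero_rpow (by linarith)]; simp
    · rw [one_div, ← Real.rpow_neg_one]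
      exact Real.rpow_le_rpow_of_exponent_le (by exact_mod_cast hn) (by linarith)
  have hr2 : ∀ n : ℕ, (n : ℝ) ^ (-(1 + σ)) ≤ 1 := by
    intro n
    rcases Nat.eq_zero_or_pos n with rfl | hn
    · rw [Nat.cast_zero, Real.zero_rpow (by linarith)]; simp
    · exact Real.rpow_le_one_of_one_le_of_nonpos (by exact_mod_cast hn) (by linarith)
  have hws := NV.summable_bdd hσ' w B hw
  have hterm : ∀ n : ℕ, ‖w n * Λ n * (n : ℝ) ^ (-(1 + σ))‖ ≤
      B * ((if n.Prime then 0 else Λ n) / (n : ℝ)) + B * (if n ∈ S then Λ n else 0) := by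
    intro n
    have hN := hΛ n
    have hR := hr n
    have g3 : 0 ≤ (if n ∈ S then Λ n else 0) := by
      split_ifs <;> [exact hN; exact le_rfl]
    have g4 : 0 ≤ (if n.Prime then 0 else Λ n) / (n : ℝ) := by
      split_ifs
      · simp
      · positivity
    rw [mul_assoc, norm_mul, Real.norm_of_nonneg (mul_nonneg hN hR), Real.norm_eq_abs]
    have hb1 : |w n| * (Λ n * (n : ℝ) ^ (-(1 + σ))) ≤ B * (Λ n * (n : ℝ) ^ (-(1 + σ))) :=
      mul_le_mul_of_nonneg_right (hw n) (mul_nonneg hN hR)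
    by_cases hp : n.Prime
    · by_cases hb : n ∈ S
      · rw [if_pos hb]
        have h3 : Λ n * (n : ℝ) ^ (-(1 + σ)) ≤ Λ n * 1 := mul_le_mul_of_nonneg_left (hr2 n) hN
        have h4 : B * (Λ n * (n : ℝ) ^ (-(1 + σ))) ≤ B * Λ n := by
          rw [mul_one] at h3
          exact mul_le_mul_of_nonneg_left h3 hB
        have h5 := mul_nonneg hB g4
        linarith
      · rw [h n hp hb, abs_zero, zero_mul]
        have h5 := mul_nonneg hB g4
        have h6 := mul_nonneg hB g3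
        linarith
    · rw [if_neg hp]
      have h11 : Λ n * (n : ℝ) ^ (-(1 + σ)) ≤ Λ n * (1 / (n : ℝ)) :=
        mul_le_mul_of_nonneg_left (hr1 n) hN
      have h12 : Λ n * (1 / (n : ℝ)) = Λ n / (n : ℝ) := by ring
      rw [h12] at h11
      have h13 := mul_le_mul_of_nonneg_left h11 hB
      have h6 := mul_nonneg hB g3
      linarith
  rw [← Real.norm_eq_abs]
  exact (norm_tsum_le_tsum_norm hws.norm).trans (hws.norm.tsum_le_tsum hterm hWs)

/-- two bounded sequences which agree at almost all primes have the same average -/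
lemma av_congr {u v : ℕ → ℝ} {A B ℓ : ℝ} (hu : ∀ n, |u n| ≤ A) (hv : ∀ n, |v n| ≤ B) (S : Finset ℕ)
    (h : ∀ p : ℕ, p.Prime → p ∉ S → u p = v p) (hl : Tendsto (av v) (𝓝[>] 0) (𝓝 ℓ)) :
    Tendsto (av u) (𝓝[>] 0) (𝓝 ℓ) := by
  have hb : ∀ n, |u n - v n| ≤ A + B := fun n =>
    (abs_sub _ _).trans (add_le_add (hu n) (hv n))
  have h1 := av_zero hb S fun p hp hS => by rw [h p hp hS, sub_self]
  have h2 := h1.add hl
  rw [zero_add] at h2
  refine h2.congr' ?_
  filter_upwards [self_mem_nhdsWithin] with σ hσ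
  have hσ' : (0 : ℝ) < σ := hσ
  rw [← av_add hb hv hσ']
  congr 1
  funext n
  ring

/-- **Criterion** -/
theorem selE_of (c : ℕ → ℂ) {B : ℝ} (hc : ∀ n, ‖c n‖ ≤ B) (u : ℕ → ℝ) {A : ℝ}
    (hu : ∀ n, |u n| ≤ A) (S : Finset ℕ) (h : ∀ p : ℕ, p.Prime → p ∉ S → ‖c p‖ ^ 2 = u p)
    (hlim : Tendsto (av u) (𝓝[>] 0) (𝓝 1)) : W388.SelE c := by
  have hB : 0 ≤ B := (norm_nonneg _).trans (hc 0)
  have hc2 : ∀ n, |‖c n‖ ^ 2| ≤ B ^ 2 := fun n => by
    rw [abs_of_nonneg (sq_nonneg _)]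
    exact pow_le_pow_left₀ (norm_nonneg _) (hc n) 2
  have hΛ : ∀ n : ℕ, 0 ≤ Λ n := fun n => ArithmeticFunction.vonMangoldt_nonneg
  have hlim' := av_congr hc2 hu S h hlim
  have hconv : ∀ (σ : ℝ), 0 < σ → ∀ n : ℕ, Λ n * ‖c n‖ ^ 2 / n * (n : ℝ) ^ (-σ) =
      ‖c n‖ ^ 2 * Λ n * (n : ℝ) ^ (-(1 + σ)) := by
    intro σ hσ n
    rcases Nat.eq_zero_or_pos n with rfl | hn
    · simp
    · have hn0 : (0 : ℝ) < n := by exact_mod_cast hn
      rw [neg_add, Real.rpow_add hn0, Real.rpow_neg_one]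
      ring
  unfold W388.SelE
  refine W688.TW.t_kara (fun n => Λ n * ‖c n‖ ^ 2 / n) (fun n => ?_) (by simp)
    (fun σ hσ => ?_) ?_
  · exact div_nonneg (mul_nonneg (hΛ n) (sq_nonneg _)) (Nat.cast_nonneg n)
  · exact (NV.summable_bdd hσ _ _ hc2).congr fun n => (hconv σ hσ n).symm
  · refine hlim'.congr' ?_
    filter_upwards [self_mem_nhdsWithin] with σ hσ
    unfold av
    rw [tsum_congr (hconv σ hσ)]

end Pool.Agent.Y772.SL
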