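import Pool.Agent.Y772.SK.Main

/-!
# Conjugate prime ideals in a Galois extension of the rationals
-/

set_option autoImplicit false

open NumberField Complex Filter Topology Ideal
open scoped Pointwise

namespace Pool.Agent.Y772.SL

open Pool.Agent.Y773 Pool.Agent.Y772.SK

variable {K : Type} [Field K] [NumberField K]

lemma absNorm_smul' (g : Gal(K/ℚ)) (P : Ideal (𝓞 K)) : absNorm (g • P) = absNorm P := by
  rw [smul_eq_map, absNorm_apply, absNorm_apply, Submodule.cardQuot_apply,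
    Submodule.cardQuot_apply]
  exact (Nat.card_congr (Ideal.quotientEquiv P _
    (RingOfIntegers.mapRingEquiv g.toRingEquiv) rfl).toEquiv).symm

lemma ne_bot_of_norm {p : ℕ} (hp : p.Prime) {P : Ideal (𝓞 K)} (h : absNorm P = p) : P ≠ ⊥ := by
  rintro rfl
  rw [absNorm_bot] at h
  exact hp.ne_zero h.symm

lemma inertia_one {p : ℕ} (hp : p.Prime) {P : Ideal (𝓞 K)} (h : absNorm P = p) :
    P.inertiaDeg ℤ = 1 := by
  have : Fact p.Prime := ⟨hp⟩
  have hP := NZ.prime_of_norm hp h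
  have hPl := NZ.liesOver_of_norm hp h
  have h1 : absNorm P = p ^ P.inertiaDeg ℤ := (pow_inertiaDeg p P).symm
  rw [h] at h1
  have h5 : p ^ 1 = p ^ P.inertiaDeg ℤ := by rw [pow_one]; exact h1
  exact (Nat.pow_right_injective hp.two_le h5).symm

lemma primesOver_eq (hG : IsGalois ℚ K) {p : ℕ} (hp : p.Prime) {P : Ideal (𝓞 K)}
    (h : absNorm P = p) :
    {Q : Ideal (𝓞 K) | absNorm Q = p} = (span {(p : ℤ)}).primesOver (𝓞 K) := by
  have : Fact p.Prime := ⟨hp⟩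
  have hP := NZ.prime_of_norm hp h
  have hPl := NZ.liesOver_of_norm hp h
  have hmax : (span {(p : ℤ)}).IsMaximal := Int.ideal_span_isMaximal_of_prime p
  have e4 := inertia_one hp h
  ext Q
  constructor
  · intro hQ
    exact ⟨NZ.prime_of_norm hp hQ, NZ.liesOver_of_norm hp hQ⟩
  · rintro ⟨hQ1, hQ2⟩
    have h6 : absNorm Q = p ^ Q.inertiaDeg ℤ := (pow_inertiaDeg p Q).symm
    have h7 : Q.inertiaDeg ℤ = P.inertiaDeg ℤ := by
      rw [← inertiaDegIn_eq_inertiaDeg (span {(p : ℤ)}) P Gal(K/ℚ),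
        ← inertiaDegIn_eq_inertiaDeg (span {(p : ℤ)}) Q Gal(K/ℚ)]
    rw [h7, e4, pow_one] at h6
    exact h6

lemma ncard_norm' (hG : IsGalois ℚ K) {p : ℕ} (hp : p.Prime)
    {P : Ideal (𝓞 K)} (h : absNorm P = p) (hd : ¬ P ∣ differentIdeal ℤ (𝓞 K)) :
    {Q : Ideal (𝓞 K) | absNorm Q = p}.ncard = Module.finrank ℚ K := by
  have : Fact p.Prime := ⟨hp⟩
  have hP := NZ.prime_of_norm hp h
  have hPl := NZ.liesOver_of_norm hp h
  have hmax : (span {(p : ℤ)}).IsMaximal := Int.ideal_span_isMaximal_of_prime p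
  have e1 := ncard_primesOver_mul_ramificationIdxIn_mul_inertiaDegIn
    (span {(p : ℤ)}) (𝓞 K) Gal(K/ℚ)
  rw [IsGalois.card_aut_eq_finrank, ramificationIdxIn_eq_ramificationIdx (span {(p : ℤ)}) P Gal(K/ℚ),
    inertiaDegIn_eq_inertiaDeg (span {(p : ℤ)}) P Gal(K/ℚ)] at e1
  have hP0 := ne_bot_of_norm hp h
  have hPm : P.IsMaximal := hP.isMaximal hP0
  have e2 : Algebra.IsUnramifiedAt ℤ P := not_dvd_differentIdeal_iff.1 hd
  have e3 : P.ramificationIdx ℤ = 1 := ramificationIdx_eq_one P ℤ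
  rw [e3, inertia_one hp h, one_mul, mul_one] at e1
  rw [primesOver_eq hG hp h, e1]

/-- the primes of norm `p` are the conjugates of one of them -/
lemma orbit' (hG : IsGalois ℚ K) {p : ℕ} (hp : p.Prime)
    {P : Ideal (𝓞 K)} (h : absNorm P = p) (hd : ¬ P ∣ differentIdeal ℤ (𝓞 K)) :
    Function.Injective (fun g : Gal(K/ℚ) => g • P) ∧
      Set.range (fun g : Gal(K/ℚ) => g • P) = {Q : Ideal (𝓞 K) | absNorm Q = p} := by
  classical
  have hcard := ncard_norm' hG hp h hd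
  have hP := NZ.prime_of_norm hp h
  have hPl := NZ.liesOver_of_norm hp h
  have hfin : {Q : Ideal (𝓞 K) | absNorm Q = p}.Finite := Ideal.finite_setOfPred_absNorm_eq p
  have hr : Set.range (fun g : Gal(K/ℚ) => g • P) = {Q : Ideal (𝓞 K) | absNorm Q = p} := by
    ext Q
    constructor
    · rintro ⟨g, rfl⟩
      simp only [Set.mem_ofPred_eq]
      rw [absNorm_smul', h]
    · intro hQ
      rw [primesOver_eq hG hp h] at hQ
      obtain ⟨hQp, hQl⟩ := hQ
      obtain ⟨γ, hγ⟩ := exists_smul_eq_of_isGaloisGroup (span {(p : ℤ)}) P Q (Gal(K/ℚ))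
      exact ⟨γ, hγ⟩
  refine ⟨?_, hr⟩
  have hc : Nat.card Gal(K/ℚ) = Module.finrank ℚ K := IsGalois.card_aut_eq_finrank ℚ K
  have h1 : (Set.range (fun g : Gal(K/ℚ) => g • P)).ncard = Nat.card Gal(K/ℚ) := by
    rw [hr, hcard, hc]
  have hf : Finite Gal(K/ℚ) := inferInstance
  rw [← Set.image_univ, ← Set.ncard_univ] at h1
  exact Set.injOn_univ.1 (Set.injOn_of_ncard_image_eq h1 Set.finite_univ)

/-- sums over the primes of norm `p` -/
lemma sum_orbit (hG : IsGalois ℚ K) {p : ℕ} (hp : p.Prime)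
    {P : Ideal (𝓞 K)} (h : absNorm P = p) (hd : ¬ P ∣ differentIdeal ℤ (𝓞 K))
    (f : Ideal (𝓞 K) → ℂ) :
    ∑ᶠ 𝔭 ∈ {𝔭 : Ideal (𝓞 K) | absNorm 𝔭 = p}, f 𝔭 = ∑ g : Gal(K/ℚ), f (g • P) := by
  obtain ⟨h1, h2⟩ := orbit' hG hp h hd
  rw [← h2, finsum_mem_range h1, finsum_eq_sum_of_fintype]

end Pool.Agent.Y772.SL
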